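import Pool.Agent.Q244.TD.Gm.Base
import Pool.Agent.W254.HP.Prod
import Pool.Agent.H297R2.InBakerThm

/-!
# Logarithms of positive algebraic numbers: relations with coefficients in a given space
-/

set_option autoImplicit false
set_option linter.unusedSectionVars false

namespace Pool.Agent.Q244.TD.Re

open NumberField TensorProduct Module
open Pool.Agent.W332.SL7 (QSub FinQ dimQ Coords)
open Pool.Agent.Q244.LK
open Pool.Agent.W254.PA (Hyp)

/-- logarithms of positive real algebraic numbers -/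
noncomputable def LamR : Submodule ℚ ℂ where
  carrier := {z | ∃ r : ℝ, 0 < r ∧ IsAlgebraic ℚ (r : ℂ) ∧ z = (Real.log r : ℂ)}
  add_mem' := by
    rintro _ _ ⟨r, hr, hra, rfl⟩ ⟨s, hs, hsa, rfl⟩
    refine ⟨r * s, mul_pos hr hs, by push_cast; exact hra.mul hsa, ?_⟩
    rw [Real.log_mul hr.ne' hs.ne']
    push_cast
    rfl
  zero_mem' := ⟨1, one_pos, by push_cast; exact isAlgebraic_one, by simp⟩
  smul_mem' := by
    rintro c _ ⟨r, hr, hra, rfl⟩
    refine ⟨r ^ (c : ℝ), Real.rpow_pos_of_pos hr _, ?_, ?_⟩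
    · have h1 : ((r ^ (c : ℝ) : ℝ) : ℂ) ^ c.den = (r : ℂ) ^ c.num := by
        have h2 : (r ^ (c : ℝ)) ^ c.den = r ^ c.num := by
          rw [← Real.rpow_natCast, ← Real.rpow_mul hr.le, ← Real.rpow_intCast]
          congr 1
          have : (c : ℝ) * (c.den : ℝ) = c.num := by exact_mod_cast Rat.mul_den_eq_num c
          exact this
        exact_mod_cast h2
      refine IsAlgebraic.of_pow c.den_pos ?_
      rw [h1]
      rcases Int.eq_nat_or_neg c.num with ⟨m, hm | hm⟩
      · rw [hm, zpow_natCast]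
        exact hra.pow m
      · rw [hm, zpow_neg, zpow_natCast]
        exact (hra.pow m).inv
    · rw [Real.log_rpow hr, Rat.smul_def]
      push_cast
      rfl

theorem exp_lamR {z : ℂ} (hz : z ∈ LamR) : IsAlgebraic ℚ (Complex.exp z) := by
  obtain ⟨r, hr, hra, rfl⟩ := hz
  rw [← Complex.ofReal_exp, Real.exp_log hr]
  exact hra

theorem hypR : Hyp (Submodule.span (algebraicClosure ℚ ℂ) (LamR : Set ℂ)) := by
  intro d l x a hx ha hxa hcol
  refine Pool.Agent.W254.HP.hyperplane d l x a hx (fun i j => ?_) hxa hcol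
  refine Submodule.span_mono ?_ (ha i j)
  intro z hz
  exact Or.inr (exp_lamR hz)

theorem bakerR : BakerH (algebraicClosure ℚ ℂ) LamR := by
  intro m b hb hli c h i
  have h1 := (Pool.Agent.H297R2.baker_inhom b (fun i => exp_lamR (hb i)) hli 0 isAlgebraic_zero
    (fun i => (c i : ℂ)) (fun i => mem_algebraicClosure_iff.mp (c i).2) (by
      rw [zero_add, ← h]
      exact Finset.sum_congr rfl fun i _ => by rw [Algebra.smul_def]; rfl)).2 i
  exact_mod_cast h1

/-- positive algebraic numbers -/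
def Pos (r : ℝ) : Prop := 0 < r ∧ IsAlgebraic ℚ (r : ℂ)

theorem log_mem {r : ℝ} (hr : Pos r) : (Real.log r : ℂ) ∈ LamR := ⟨r, hr.1, hr.2, rfl⟩

/-- clearing denominators -/
theorem exists_mult {s : ℕ} (q : Fin s → ℚ) : ∃ (N : ℕ) (m : Fin s → ℤ), N ≠ 0 ∧
    ∀ j, (m j : ℚ) = N * q j := by
  let N : ℕ := ∏ j, (q j).den
  have hm : ∀ j, ∃ m : ℤ, (m : ℚ) = N * q j := by
    intro j
    obtain ⟨t, ht⟩ : (q j).den ∣ N := Finset.dvd_prod_of_mem _ (Finset.mem_univ j)
    refine ⟨t * (q j).num, ?_⟩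
    rw [ht]
    push_cast
    have h5 : q j * (q j).den = (q j).num := Rat.mul_den_eq_num _
    linear_combination (-(t : ℚ)) * h5
  choose m hm using hm
  exact ⟨N, m, Finset.prod_ne_zero_iff.2 fun j _ => (q j).den_nz, hm⟩

/-- **One number field.** -/
theorem field_of_space (A : QSub ℂ) [FiniteDimensional (algebraicClosure ℚ ℂ) A] :
    ∃ F : IntermediateField ℚ ℂ, FiniteDimensional ℚ F ∧ Normal ℚ F ∧
      ∀ (n : ℕ) (c : Fin n → ℂ) (u : Fin n → ℝ), (∀ i, c i ∈ A) →
        (∀ w : Fin n → ℚ, ∑ i, (w i : ℂ) * c i = 0 → w = 0) → (∀ i, Pos (u i)) →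
        ∑ i, c i * (Real.log (u i) : ℂ) = 0 → ∀ i, ∃ m : ℕ, 1 ≤ m ∧ (u i : ℂ) ^ m ∈ F := by
  classical
  obtain ⟨Λ', h1, h2, h3⟩ := relations hypR bakerR A
  let b := Module.finBasis ℚ Λ'
  have hb : ∀ j, ∃ w : ℝ, 0 < w ∧ IsAlgebraic ℚ (w : ℂ) ∧ ((b j : Λ') : ℂ) = (Real.log w : ℂ) :=
    fun j => h1 (b j).2
  choose w hw hwa hbw using hb
  obtain ⟨F, hF1, hF2, hwF⟩ := exists_normal (fun j => (w j : ℂ)) hwa
  refine ⟨F, hF1, hF2, ?_⟩
  intro n c u hc hci hu h0 i
  have hz := h3 n c (fun i => (Real.log (u i) : ℂ)) hc (fun i => log_mem (hu i)) h0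
    (fun w hw => hci w (by
      rw [← hw]
      exact Finset.sum_congr rfl fun i _ => (Rat.smul_def _ _).symm)) i
  set q : Fin (finrank ℚ Λ') → ℚ := fun j => b.repr ⟨(Real.log (u i) : ℂ), hz⟩ j with hq
  have hsum : (Real.log (u i) : ℂ) = ∑ j, (q j : ℂ) * (Real.log (w j) : ℂ) := by
    have := congrArg (fun z : Λ' => (z : ℂ)) (b.sum_repr ⟨(Real.log (u i) : ℂ), hz⟩)
    simp only at this
    rw [← this]
    push_cast
    refine Finset.sum_congr rfl fun j _ => ?_
    rw [hbw, Rat.smul_def]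
  have hsum' : Real.log (u i) = ∑ j, (q j : ℝ) * Real.log (w j) := by exact_mod_cast hsum
  obtain ⟨N, m, hN, hm⟩ := exists_mult q
  have h4 : (N : ℝ) * Real.log (u i) = ∑ j, (m j : ℝ) * Real.log (w j) := by
    rw [hsum', Finset.mul_sum]
    refine Finset.sum_congr rfl fun j _ => ?_
    have : ((m j : ℤ) : ℝ) = N * (q j : ℝ) := by
      exact_mod_cast congrArg (Rat.cast : ℚ → ℝ) (hm j)
    rw [this, mul_assoc]
  have h5 : u i ^ N = ∏ j, w j ^ m j := by
    have h6 : Real.log (u i ^ N) = Real.log (∏ j, w j ^ m j) := by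
      rw [Real.log_pow, Real.log_prod (fun j _ => (zpow_pos (hw j) _).ne'), h4]
      exact Finset.sum_congr rfl fun j _ => (Real.log_zpow _ _).symm
    exact Real.log_injOn_pos (Set.mem_Ioi.2 (pow_pos (hu i).1 N))
      (Set.mem_Ioi.2 (Finset.prod_pos fun j _ => zpow_pos (hw j) _)) h6
  refine ⟨N, Nat.one_le_iff_ne_zero.2 hN, ?_⟩
  have h7 : (u i : ℂ) ^ N = ∏ j, (w j : ℂ) ^ m j := by exact_mod_cast h5
  rw [h7]
  exact prod_mem fun j _ => zpow_mem (hwF j) _

/-- Logarithms of multiplicatively independent numbers. -/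
theorem logs_indep {ι : Type} [Fintype ι] (u : ι → ℝ) (hu : ∀ i, Pos (u i))
    (h : ∀ m : ι → ℤ, ∏ i, u i ^ m i = 1 → m = 0) :
    LinearIndependent ℚ fun i => (Real.log (u i) : ℂ) := by
  classical
  rw [Fintype.linearIndependent_iff]
  intro q hq
  let N : ℕ := ∏ j, (q j).den
  have hN : N ≠ 0 := Finset.prod_ne_zero_iff.2 fun j _ => (q j).den_nz
  have hm : ∀ j, ∃ m : ℤ, (m : ℚ) = N * q j := by
    intro j
    obtain ⟨t, ht⟩ : (q j).den ∣ N := Finset.dvd_prod_of_mem _ (Finset.mem_univ j)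
    refine ⟨t * (q j).num, ?_⟩
    rw [ht]
    push_cast
    have h5 : q j * (q j).den = (q j).num := Rat.mul_den_eq_num _
    linear_combination (-(t : ℚ)) * h5
  choose m hm using hm
  have hq' : ∑ j, (q j : ℝ) * Real.log (u j) = 0 := by
    have h1 : ∑ j, (q j : ℂ) * (Real.log (u j) : ℂ) = 0 := by
      rw [← hq]
      exact Finset.sum_congr rfl fun j _ => (Rat.smul_def _ _).symm
    exact_mod_cast h1
  have h1 : Real.log (∏ j, u j ^ m j) = 0 := by
    rw [Real.log_prod (fun j _ => (zpow_pos (hu j).1 _).ne')]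
    have h2 : ∀ j, Real.log (u j ^ m j) = N * ((q j : ℝ) * Real.log (u j)) := by
      intro j
      rw [Real.log_zpow]
      have : ((m j : ℤ) : ℝ) = N * (q j : ℝ) := by
        exact_mod_cast congrArg (Rat.cast : ℚ → ℝ) (hm j)
      rw [this, mul_assoc]
    rw [Finset.sum_congr rfl fun j _ => h2 j, ← Finset.mul_sum, hq', mul_zero]
  have h2 : ∏ j, u j ^ m j = 1 :=
    Real.log_injOn_pos (Set.mem_Ioi.2 (Finset.prod_pos fun j _ => zpow_pos (hu j).1 _))
      (Set.mem_Ioi.2 one_pos) (by rw [h1, Real.log_one])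
  intro j
  have h3 := congrFun (h m h2) j
  have h5 := hm j
  rw [h3, Pi.zero_apply, Int.cast_zero] at h5
  have h6 : (N : ℚ) ≠ 0 := by exact_mod_cast hN
  exact (mul_eq_zero.1 h5.symm).resolve_left h6

theorem logs_indep' {ι : Type} [Fintype ι] (u : ι → ℝ) (hu : ∀ i, Pos (u i))
    (h : ∀ m : ι → ℤ, ∏ i, u i ^ m i = 1 → m = 0) :
    LinearIndependent (algebraicClosure ℚ ℂ) fun i => (Real.log (u i) : ℂ) := by
  rw [Fintype.linearIndependent_iff]
  intro g hg i
  have h1 := (Pool.Agent.H297R2.baker_inhom (fun i => (Real.log (u i) : ℂ))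
    (fun i => exp_lamR (log_mem (hu i))) (logs_indep u hu h) 0 isAlgebraic_zero
    (fun i => (g i : ℂ)) (fun i => mem_algebraicClosure_iff.mp (g i).2) (by
      rw [zero_add, ← hg]
      exact Finset.sum_congr rfl fun i _ => by rw [Algebra.smul_def]; rfl)).2 i
  exact_mod_cast h1

/-- **The bound for a system of relations.** -/
theorem bounds_indep (A : QSub ℂ) (hA : FinQ A) {ι : Type} [Fintype ι] (u : ι → ℝ)
    (hu : ∀ i, Pos (u i)) (h : ∀ m : ι → ℤ, ∏ i, u i ^ m i = 1 → m = 0) (M : ℕ)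
    (f : Fin M → ι → ℂ) (hf : LinearIndependent ℂ f) (hfA : ∀ k i, f k i ∈ A)
    (h0 : ∀ k, ∑ i, f k i * (Real.log (u i) : ℂ) = 0) : M ≤ dimQ A * (dimQ A - 1) := by
  classical
  rcases Nat.eq_zero_or_pos M with hM | hM
  · omega
  have hne : A ≠ ⊥ := by
    rintro rfl
    refine hf.ne_zero ⟨0, hM⟩ ?_
    funext i
    exact (Submodule.mem_bot _).1 (hfA _ i)
  have i1 : FiniteDimensional (algebraicClosure ℚ ℂ) A := hA
  have i2 : FiniteDimensional (algebraicClosure ℚ ℂ)
      (1 : Submodule (algebraicClosure ℚ ℂ) ℂ) := by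
    rw [Submodule.one_eq_span]
    infer_instance
  have h4 : 1 ≤ dimQ A := by
    apply Nat.one_le_iff_ne_zero.mpr
    intro h
    exact hne (Submodule.finrank_eq_zero.mp h)
  have h5 := Pool.Agent.W254.Ab.rel_trunc hypR (fun i => (Real.log (u i) : ℂ)) (logs_indep' u hu h)
    (fun i => Submodule.subset_span (log_mem (hu i))) A 1 hne M
    (fun k => Finsupp.equivFunOnFinite.symm (f k)) ?_ (fun k i => hfA k i) ?_ 1 (dimQ A - 1) ?_ ?_
  · rw [mul_one, Nat.sub_add_cancel h4] at h5
    exact h5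
  · exact hf.map' (Finsupp.linearEquivFunOnFinite ℂ ℂ ι).symm.toLinearMap (LinearEquiv.ker _)
  · intro k
    rw [Finsupp.sum_fintype _ _ (fun i => by rw [zero_mul])]
    exact h0 k
  · rw [Submodule.one_eq_span, finrank_span_singleton one_ne_zero]
  · have h6 : ((1 : Submodule (algebraicClosure ℚ ℂ) ℂ) * A) = A := one_mul A
    rw [h6, Submodule.one_eq_span, finrank_span_singleton one_ne_zero]
    show dimQ A ≤ _
    omega

/-- rational independence -/
def RInd {n : ℕ} (a : Fin n → ℂ) : Prop :=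
  ∀ w : Fin n → ℚ, ∑ i, (w i : ℂ) * a i = 0 → w = 0

/-- the logarithm of the absolute value -/
noncomputable def L (z : ℂ) : ℂ := (Real.log ‖z‖ : ℂ)

section comp

/-- the totally positive elements (with real embeddings) -/
def Comp (K : Type) [Field K] : Subgroup Kˣ where
  carrier := {u | ∀ σ : K →+* ℂ, ∃ r : ℝ, 0 < r ∧ σ u = r}
  mul_mem' := by
    intro a b ha hb σ
    obtain ⟨r, hr, h1⟩ := ha σ
    obtain ⟨s, hs, h2⟩ := hb σ
    exact ⟨r * s, mul_pos hr hs, by rw [Units.val_mul, map_mul, h1, h2]; push_cast; rfl⟩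
  one_mem' := by
    intro σ
    exact ⟨1, one_pos, by rw [Units.val_one, map_one]; push_cast; rfl⟩
  inv_mem' := by
    intro a ha σ
    obtain ⟨r, hr, h1⟩ := ha σ
    exact ⟨r⁻¹, inv_pos.2 hr, by rw [Units.val_inv_eq_inv_val, map_inv₀, h1]; push_cast; rfl⟩

/-- `ℂ ⊗ Comp K` -/
abbrev CM (K : Type) [Field K] : Type := ℂ ⊗[ℤ] Additive (Comp K)

variable {K H M : Type} [Field K] [Field H] [Field M]

/-- the map induced by a field homomorphism -/
noncomputable def cMap (f : K →+* H) : Additive (Comp K) →+ Additive (Comp H) :=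
  MonoidHom.toAdditive
    { toFun := fun u => ⟨Units.map (f : K →* H) (u : Kˣ), fun σ => u.2 (σ.comp f)⟩
      map_one' := Subtype.ext (map_one _)
      map_mul' := fun _ _ => Subtype.ext (map_mul _ _ _) }

/-- the value of an element -/
def val (u : Additive (Comp K)) : K := (((Additive.toMul u : Comp K) : Kˣ) : K)

theorem val_ne (u : Additive (Comp K)) : val u ≠ 0 := Units.ne_zero _

theorem val_inj {u v : Additive (Comp K)} (h : val u = val v) : u = v :=
  Additive.toMul.injective (Subtype.ext (Units.ext h))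

theorem val_cMap (f : K →+* H) (u : Additive (Comp K)) : val (cMap f u) = f (val u) := rfl

theorem val_nsmul (u : Additive (Comp K)) (n : ℕ) : val (n • u) = val u ^ n := by
  unfold val
  rw [toMul_nsmul, Subgroup.coe_pow, Units.val_pow_eq_pow_val]

theorem pos_val (σ : K →+* ℂ) (u : Additive (Comp K)) : ∃ r : ℝ, 0 < r ∧ σ (val u) = r :=
  (Additive.toMul u).2 σ

theorem norm_pos (σ : K →+* ℂ) (u : Additive (Comp K)) : 0 < ‖σ (val u)‖ :=
  norm_pos_iff.2 ((map_ne_zero σ).2 (val_ne u))

theorem norm_eq (σ : K →+* ℂ) (u : Additive (Comp K)) : σ (val u) = (‖σ (val u)‖ : ℝ) := by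
  obtain ⟨r, hr, h⟩ := pos_val σ u
  rw [h, Complex.norm_real, Real.norm_of_nonneg hr.le]

theorem pos_norm [NumberField K] (σ : K →+* ℂ) (u : Additive (Comp K)) : Pos ‖σ (val u)‖ := by
  refine ⟨norm_pos σ u, ?_⟩
  rw [← norm_eq]
  exact (Algebra.IsAlgebraic.isAlgebraic (R := ℚ) (val u)).algHom (RingHom.toRatAlgHom σ)

/-- the linear extension -/
noncomputable def cpush (f : K →+* H) : CM K →ₗ[ℂ] CM H :=
  (cMap f).toIntLinearMap.baseChange ℂ

theorem cpush_tmul (f : K →+* H) (c : ℂ) (u : Additive (Comp K)) :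
    cpush f (c ⊗ₜ u : CM K) = c ⊗ₜ cMap f u := rfl

theorem cpush_cpush (f : K →+* H) (g : H →+* M) (x : CM K) :
    cpush g (cpush f x) = cpush (g.comp f) x := by
  induction x using TensorProduct.induction_on with
  | zero => simp
  | tmul c u => rfl
  | add x y hx hy => rw [map_add, map_add, map_add, hx, hy]

theorem cpush_id (x : CM K) : cpush (RingHom.id K) x = x := by
  induction x using TensorProduct.induction_on with
  | zero => simp
  | tmul c u => rfl
  | add x y hx hy => rw [map_add, hx, hy]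

theorem cpush_inj (f : K →+* H) : Function.Injective (cpush f) := by
  have h1 : Function.Injective (cMap f).toIntLinearMap := by
    intro u v h
    apply val_inj
    apply f.injective
    exact congrArg val h
  exact Module.Flat.lTensor_preserves_injective_linearMap (M := ℂ) _ h1

/-- `u ↦ L (σ u)` -/
noncomputable def clogHom (σ : K →+* ℂ) : Additive (Comp K) →+ ℂ where
  toFun u := L (σ (val u))
  map_zero' := by
    show L (σ (1 : K)) = 0
    rw [map_one]
    simp [L]
  map_add' u v := by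
    show L (σ (val u * val v)) = _
    unfold L
    rw [map_mul, norm_mul, Real.log_mul (norm_pos σ u).ne' (norm_pos σ v).ne']
    push_cast
    rfl

/-- the linear extension -/
noncomputable def clog (σ : K →+* ℂ) : CM K →ₗ[ℂ] ℂ :=
  (clogHom σ).toIntLinearMap.liftBaseChange ℂ

theorem clog_tmul (σ : K →+* ℂ) (c : ℂ) (u : Additive (Comp K)) :
    clog σ (c ⊗ₜ u) = c * L (σ (val u)) := rfl

theorem clog_cpush (f : K →+* H) (σ : H →+* ℂ) (x : CM K) :
    clog σ (cpush f x) = clog (σ.comp f) x := by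
  induction x using TensorProduct.induction_on with
  | zero => simp
  | tmul c u => rfl
  | add x y hx hy => rw [map_add, map_add, map_add, hx, hy]

/-- **The bound for independent elements.** -/
theorem bounds_family (A : QSub ℂ) (hA : FinQ A) {K : Type} [Field K] [NumberField K] {r : ℕ}
    (x : Fin r → CM K) (hx : LinearIndependent ℂ x) (hxA : ∀ j, Coords A (x j))
    (σ : K →+* ℂ) (h0 : ∀ j, clog σ (x j) = 0) : r ≤ dimQ A * (dimQ A - 1) := by
  classical
  obtain ⟨n, u, a, hu, ha, hxu⟩ := Gm.exists_family x hxA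
  refine bounds_indep A hA (fun k => ‖σ (val (u k))‖) (fun k => pos_norm σ _) ?_ r a ?_ ha ?_
  · intro m hm
    have h1 : ∑ k, m k • u k = 0 := by
      apply val_inj
      apply σ.injective
      have h2 : ∀ (v : Additive (Comp K)) (z : ℤ), val (z • v) = val v ^ z := by
        intro v z
        unfold val
        rw [toMul_zsmul, Subgroup.coe_zpow, Units.val_zpow_eq_zpow_val]
      have h3 : ∀ s : Finset (Fin n), σ (val (∑ k ∈ s, m k • u k)) =
          ((∏ k ∈ s, ‖σ (val (u k))‖ ^ m k : ℝ) : ℂ) := by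
        intro s
        induction s using Finset.induction_on with
        | empty =>
          rw [Finset.prod_empty, Complex.ofReal_one]
          exact map_one σ
        | insert k s hk ih =>
          rw [Finset.sum_insert hk, Finset.prod_insert hk, Complex.ofReal_mul, ← ih,
            Complex.ofReal_zpow, ← norm_eq, ← map_zpow₀, ← h2, ← map_mul]
          rfl
      rw [h3, hm, Complex.ofReal_one]
      exact (map_one σ).symm
    funext k
    exact (Fintype.linearIndependent_iff.1 hu) m h1 k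
  · rw [Fintype.linearIndependent_iff] at hx ⊢
    intro g hg
    apply hx g
    have h1 : ∀ j, g j • x j = ∑ k, (g j * a j k) ⊗ₜ[ℤ] u k := by
      intro j
      rw [hxu j, Finset.smul_sum]
      refine Finset.sum_congr rfl fun k _ => ?_
      rw [TensorProduct.smul_tmul', smul_eq_mul]
    rw [Finset.sum_congr rfl fun j _ => h1 j, Finset.sum_comm]
    refine Finset.sum_eq_zero fun k _ => ?_
    rw [← TensorProduct.sum_tmul]
    have h2 := congrFun hg k
    rw [Finset.sum_apply] at h2
    have h3 : ∑ j, g j * a j k = 0 := h2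
    rw [h3, TensorProduct.zero_tmul]
  · intro j
    rw [← h0 j, hxu j, map_sum]
    exact Finset.sum_congr rfl fun k _ => rfl

end comp

section fields

theorem exists_ext' {K H : Type} [Field K] [NumberField K] [Field H] [NumberField H]
    (f : K →+* H) (s : K →+* ℂ) : ∃ t : H →+* ℂ, t.comp f = s := by
  let := f.toAlgebra
  let := s.toAlgebra
  have : Algebra.IsAlgebraic K H := Algebra.IsAlgebraic.tower_top (K := ℚ) K
  let φ : H →ₐ[K] ℂ := IsAlgClosed.lift
  exact ⟨φ, φ.comp_algebraMap⟩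

/-- The subfield of `K` of the elements which `σ` maps to `F`. -/
noncomputable def sub {K : Type} [Field K] [NumberField K] (σ : K →+* ℂ)
    (F : IntermediateField ℚ ℂ) : IntermediateField ℚ K :=
  F.comap (RingHom.toRatAlgHom σ)

theorem mem_sub {K : Type} [Field K] [NumberField K] {σ : K →+* ℂ}
    {F : IntermediateField ℚ ℂ} {z : K} : z ∈ sub σ F ↔ σ z ∈ F := Iff.rfl

/-- the restriction of `σ` to the elements which are mapped to `F` -/
noncomputable def rst {K : Type} [Field K] [NumberField K] (σ : K →+* ℂ)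
    (F : IntermediateField ℚ ℂ) : sub σ F →+* F where
  toFun y := ⟨σ (y : K), y.2⟩
  map_one' := Subtype.ext (map_one σ)
  map_mul' a b := Subtype.ext (map_mul σ (a : K) (b : K))
  map_zero' := Subtype.ext (map_zero σ)
  map_add' a b := Subtype.ext (map_add σ (a : K) (b : K))

/-- the subfield of `ℂ` which corresponds to a subgroup of the Galois group -/
noncomputable def fixd {F : Type} [Field F] [NumberField F] (ι : F →+* ℂ)
    (N : Subgroup (F ≃ₐ[ℚ] F)) : IntermediateField ℚ ℂ :=
  (IntermediateField.fixedField N).map (RingHom.toRatAlgHom ι)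

theorem fixd_props {F : Type} [Field F] [NumberField F] [IsGalois ℚ F] (ι : F →+* ℂ)
    (N : Subgroup (F ≃ₐ[ℚ] F)) (hN : N.Normal) :
    FiniteDimensional ℚ (fixd ι N) ∧ Normal ℚ (fixd ι N) ∧
      finrank ℚ (fixd ι N) * Nat.card N = finrank ℚ F := by
  let e : IntermediateField.fixedField N ≃ₐ[ℚ] fixd ι N :=
    (IntermediateField.fixedField N).equivMap (RingHom.toRatAlgHom ι)
  have h1 : IsGalois ℚ (IntermediateField.fixedField N) := IsGalois.of_fixedField_normal_subgroup N
  have hf : FiniteDimensional ℚ (IntermediateField.fixedField N) := inferInstance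
  refine ⟨?_, ?_, ?_⟩
  · exact e.toLinearEquiv.finiteDimensional
  · have h2 := h1.to_normal
    have h3 := Normal.of_algEquiv e
    convert h3
  · rw [← e.toLinearEquiv.finrank_eq, ← IntermediateField.finrank_fixedField_eq_card,
      finrank_mul_finrank]

/-- the automorphisms of `F` which fix the elements of `F` in the image of `σ` -/
def fixer {K : Type} [Field K] (F : IntermediateField ℚ ℂ) (σ : K →+* ℂ) :
    Set (F ≃ₐ[ℚ] F) := {γ | ∀ y : F, (y : ℂ) ∈ σ.range → γ y = y}

end fields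

end Pool.Agent.Q244.TD.Re
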